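import Pool.Agent.helper83.GR.Spec

/-!
# Project gr: module LIF
-/

set_option autoImplicit false

namespace Pool.Agent.GR

open Pool.Agent.helper58.DC Pool.Agent.DI

theorem LIF_Cz_le {G : Type} [Group G] (H : Subgroup G) (y : G) : Cz H y ≤ H := inf_le_left

theorem LIF_Cz_comm {G : Type} [Group G] (H : Subgroup G) (y x : G) (hx : x ∈ Cz H y) :
    y * x = x * y := by
  have h2 : x ∈ Subgroup.centralizer {y} := hx.2
  rw [Subgroup.mem_centralizer_iff] at h2
  exact h2 y (Set.mem_singleton y)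

theorem LIF_cc_rs {G : Type} [Group G] (H : Subgroup G) (y : G) (θ : G → ℂ)
    (hθ : θ ∈ IrrOn (Cz H y)) (z : G → ℂ) : cc θ (rs y z) = cc θ z := by
  unfold cc
  congr 1
  refine finsum_congr fun x => ?_
  by_cases hx : x ∈ Cz H y
  · rw [rs, if_pos (LIF_Cz_comm H y x hx)]
  · rw [hθ.1 x hx, mul_zero, mul_zero]

theorem LIF_mul (hBRH : BRH_stmt) (hCCI : CCI_stmt) (hCVF : CVF_stmt) (p : ℕ)
    (M : Ideal (integralClosure ℤ ℂ)) (hS : Setup p M) {G : Type} [Group G] [Finite G]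
    (H : Subgroup G) (y : G) (hy : y ∈ H) (hp : PEl p y) (θ : G → ℂ) (hθ : θ ∈ IrrOn (Cz H y))
    (z w : G → ℂ) (hz : CF H z) (hw : CF H w) (hz' : ∀ x, IntAt M (z x))
    (hw' : ∀ x, IntAt M (w x)) : InM M (cc θ (cv z w) - cc θ z * cc θ w) := by
  obtain ⟨-, -, -, -, -, -, -, hCF, -, -, hInt, -⟩ := hCVF G
  obtain ⟨h1, h2, h3⟩ := hBRH p M hS G H y hy hp z w hz hw hz' hw'
  obtain ⟨-, h4, h5⟩ := hBRH p M hS G H y hy hp w w hw hw hw' hw'
  have hzw : CF H (cv z w) := (hCF H z w hz hw).1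
  have hzw' : ∀ x, IntAt M (cv z w x) := hInt p M hS z w hz' hw'
  obtain ⟨-, h6, h7⟩ := hBRH p M hS G H y hy hp (cv z w) w hzw hw hzw' hw'
  obtain ⟨c1, c2, c3⟩ := hCCI G (Cz H y) θ hθ
  have hL : CF (Cz H y) (cv (rs y z) (rs y w)) := (hCF _ _ _ h2 h4).1
  have hd : CF (Cz H y) (rs y (cv z w) - cv (rs y z) (rs y w)) := (hCF _ _ _ h6 hL).2.2
  have hval : ∀ x, InM M ((rs y (cv z w) - cv (rs y z) (rs y w)) x) := by
    intro x
    by_cases hx : x ∈ Cz H y
    · have := h1 x hx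
      have e : rs y (cv z w) x = cv z w x := by
        rw [rs, if_pos (LIF_Cz_comm H y x hx)]
      rw [Pi.sub_apply, e]
      exact this
    · rw [hd.2 x hx]
      exact InM.zero hS
  have hfin := (c3 p M hS _ hd.1).2 hval
  rw [(c1 0 (rs y (cv z w)) (cv (rs y z) (rs y w))).2.1, c2 _ _ h2 h4, LIF_cc_rs H y θ hθ,
    LIF_cc_rs H y θ hθ, LIF_cc_rs H y θ hθ] at hfin
  exact hfin

theorem LIF (hBRH : BRH_stmt) (hCCI : CCI_stmt) (hCVF : CVF_stmt) (hEXP : EXP_stmt)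
    (hB2 : B2_stmt) : LIF_stmt := by
  classical
  intro p M hS G _ _ H y hy hp θ hθ
  by_contra hcon
  push Not at hcon
  obtain ⟨-, -, -, -, -, -, -, hCF, hCFs, hCFd, hInt, -⟩ := hCVF G
  have hdl : CF H (dl : G → ℂ) := hCFd H
  have hdl' : ∀ x, IntAt M ((dl : G → ℂ) x) := by
    intro x
    unfold dl
    split_ifs
    · exact IntAt.one hS
    · exact IntAt.zero hS
  have cθ := hCCI G (Cz H y) θ hθ
  have hLint : ∀ z : G → ℂ, CF H z → (∀ x, IntAt M (z x)) → IntAt M (cc θ z) := by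
    intro z hz hz'
    exact (cθ.2.2 p M hS z fun h hh x => hz.1 h (LIF_Cz_le H y hh) x).1 hz'
  have key : ∀ T : Finset (G → ℂ), (∀ ψ ∈ T, ψ ∈ IrrOn H) → ∃ g : G → ℂ, CF H g ∧
      (∀ x, IntAt M (g x)) ∧ (∀ ψ ∈ T, cc ψ g = 0) ∧ ¬ InM M (cc θ g) := by
    intro T
    induction T using Finset.induction_on with
    | empty =>
      intro _
      refine ⟨dl, hdl, hdl', by simp, ?_⟩
      rw [(cθ.1 0 dl dl).2.2.2]
      exact InM.not_one hS
    | insert ψ T hψT ih =>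
      intro hT
      obtain ⟨g, hg, hg', hgT, hgθ⟩ := ih fun φ hφ => hT φ (Finset.mem_insert_of_mem hφ)
      have hψ : ψ ∈ IrrOn H := hT ψ (Finset.mem_insert_self _ _)
      obtain ⟨f, hf, hf', hfθ⟩ := hcon ψ hψ
      have hf'' : ∀ x, IntAt M (f x) := hf'
      have cψ := hCCI G H ψ hψ
      have hk : IntAt M (cc ψ f) := (cψ.2.2 p M hS f hf.1).1 hf''
      set g' : G → ℂ := f - (cc ψ f) • dl with hg'def
      have hg'1 : CF H g' := (hCF H _ _ hf (hCFs H (cc ψ f) dl hdl)).2.2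
      have hg'2 : ∀ x, IntAt M (g' x) := by
        intro x
        have : g' x = f x - cc ψ f * dl x := by simp [hg'def]
        rw [this]
        exact (hf'' x).sub hS (hk.mul hS (hdl' x))
      have hg'3 : cc ψ g' = 0 := by
        rw [hg'def, (cψ.1 0 f _).2.1, (cψ.1 (cc ψ f) dl dl).2.2.1, (cψ.1 0 dl dl).2.2.2, mul_one,
          sub_self]
      have hg'4 : ¬ InM M (cc θ g') := by
        rw [hg'def, (cθ.1 0 f _).2.1, (cθ.1 (cc ψ f) dl dl).2.2.1, (cθ.1 0 dl dl).2.2.2, mul_one]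
        exact hfθ
      refine ⟨cv g g', (hCF H _ _ hg hg'1).1, hInt p M hS g g' hg' hg'2, ?_, ?_⟩
      · intro φ hφ
        have hφ' : φ ∈ IrrOn H := hT φ hφ
        rw [(hCCI G H φ hφ').2.1 g g' hg hg'1]
        rcases Finset.mem_insert.1 hφ with rfl | hφT
        · rw [hg'3, mul_zero]
        · rw [hgT φ hφT, zero_mul]
      · intro hbad
        have hm := LIF_mul hBRH hCCI hCVF p M hS H y hy hp θ hθ g g' hg hg'1 hg' hg'2
        have hprod : InM M (cc θ g * cc θ g') := by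
          have := hbad.sub hS hm
          rwa [sub_sub_cancel] at this
        rcases InM.or hS (hLint g hg hg') (hLint g' hg'1 hg'2) hprod with h1 | h1
        · exact hgθ h1
        · exact hg'4 h1
  have hfin : (IrrOn H).Finite := (hB2 G H).1
  obtain ⟨g, hg, hg', hgT, hgθ⟩ := key hfin.toFinset fun ψ hψ => (Set.Finite.mem_toFinset hfin).1 hψ
  have hg0 : g = 0 := hEXP G H g hg fun ψ hψ => hgT ψ ((Set.Finite.mem_toFinset hfin).2 hψ)
  apply hgθ
  rw [hg0]
  have : cc θ (0 : G → ℂ) = 0 := by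
    unfold cc
    simp
  rw [this]
  exact InM.zero hS

end Pool.Agent.GR
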